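import Pool.Agent.V7H59.AQ.Spec

set_option autoImplicit false

/-!
# The piece R3: the contracting functional is bounded on second differences
-/

namespace Pool.Agent.V7H33.AQ

open Pool.Agent.V7H59.AQ

/-- the contracting functional as a complex number -/
noncomputable def ze (z : ℂ) (v0 v1 v2 v3 : ℝ) : ℂ :=
  v0 + (z - 1) * v1 + z * (z - 1) * v2 + (z - 1) * (z ^ 2 - 1) * v3

lemma ze_re (a b v0 v1 v2 v3 : ℝ) : (ze ⟨a, b⟩ v0 v1 v2 v3).re = reZ a b v0 v1 v2 v3 := by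
  simp only [ze, reZ, pow_two, Complex.add_re, Complex.mul_re, Complex.sub_re, Complex.one_re,
    Complex.ofReal_re, Complex.ofReal_im, Complex.mul_im, Complex.sub_im, Complex.one_im]
  ring

lemma ze_im (a b v0 v1 v2 v3 : ℝ) : (ze ⟨a, b⟩ v0 v1 v2 v3).im = imZ a b v0 v1 v2 v3 := by
  simp only [ze, imZ, pow_two, Complex.add_im, Complex.mul_re, Complex.sub_re, Complex.one_re,
    Complex.ofReal_re, Complex.ofReal_im, Complex.mul_im, Complex.sub_im, Complex.one_im]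
  ring

lemma ze_step (z : ℂ) (hz : z ^ 4 - z ^ 3 - 2 * z ^ 2 + 2 * z - 1 = 0) (v0 v1 v2 v3 x y : ℝ) :
    ze z (v0 + v3 + x) (v0 + v2) (v1 + v3) (v2 + y) =
      z * ze z v0 v1 v2 v3 + (x + (z - 1) * (z ^ 2 - 1) * y) := by
  unfold ze
  push_cast
  linear_combination (-(v3 : ℂ)) * hz

lemma nle {x : ℂ} {c : ℝ} (hc : 0 ≤ c) (h : x.re ^ 2 + x.im ^ 2 ≤ c ^ 2) : ‖x‖ ≤ c := by
  rw [← Real.sqrt_sq hc, Complex.norm_def]
  apply Real.sqrt_le_sqrt
  rw [Complex.normSq_apply]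
  nlinarith

theorem t_R3 : S_R3 := by
  intro a b ha hb e1 e2 p0 p1 p2 p3 al de par hpar0 hpar h0 hal hp0 hp1 hp2 hp3 n0 n1 n2 v0 v1 v2 v3 hv0 hv1 hv2 hv3
  obtain ⟨z, hzdef⟩ : ∃ z : ℂ, z = ⟨a, b⟩ := ⟨_, rfl⟩
  have zre : z.re = a := by rw [hzdef]
  have zim : z.im = b := by rw [hzdef]
  have hz : z ^ 4 - z ^ 3 - 2 * z ^ 2 + 2 * z - 1 = 0 := by
    apply Complex.ext
    · simp only [pow_succ, pow_zero, one_mul, Complex.add_re, Complex.sub_re, Complex.mul_re, Complex.mul_im, zre, zim,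
        Complex.one_re, Complex.zero_re, Complex.re_ofNat, Complex.im_ofNat]
      linear_combination e1
    · simp only [pow_succ, pow_zero, one_mul, Complex.add_im, Complex.sub_im, Complex.mul_re, Complex.mul_im, zre, zim,
        Complex.one_im, Complex.zero_im, Complex.re_ofNat, Complex.im_ofNat]
      linear_combination e2
  -- numeric bounds
  have a2l : 0.1659 ≤ a ^ 2 := by nlinarith [ha.1, ha.2]
  have a2u : a ^ 2 ≤ 0.1660 := by nlinarith [ha.1, ha.2]
  have b2l : 0.2271 ≤ b ^ 2 := by nlinarith [hb.1, hb.2]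
  have b2u : b ^ 2 ≤ 0.2272 := by nlinarith [hb.1, hb.2]
  have nz : ‖z‖ ≤ 0.6272 := by
    apply nle (by norm_num)
    rw [zre, zim]
    nlinarith
  obtain ⟨w, hw⟩ : ∃ w : ℂ, w = (z - 1) * (z ^ 2 - 1) := ⟨_, rfl⟩
  have wre : w.re = (a - 1) * (a ^ 2 - b ^ 2 - 1) - 2 * a * b ^ 2 := by
    rw [hw]
    simp only [pow_two, Complex.mul_re, Complex.mul_im, Complex.sub_re, Complex.sub_im, zre, zim, Complex.one_re,
      Complex.one_im]
    ring
  have wim : w.im = b * (a ^ 2 - b ^ 2 - 1) + 2 * a * b * (a - 1) := by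
    rw [hw]
    simp only [pow_two, Complex.mul_re, Complex.mul_im, Complex.sub_re, Complex.sub_im, zre, zim, Complex.one_re,
      Complex.one_im]
    ring
  obtain ⟨X, hX⟩ : ∃ X : ℝ, X = a ^ 2 - b ^ 2 - 1 := ⟨_, rfl⟩
  have Xl : -1.0613 ≤ X := by rw [hX]; linarith
  have Xu : X ≤ -1.0611 := by rw [hX]; linarith
  have r1 : 0.62 ≤ (a - 1) * X ∧ (a - 1) * X ≤ 0.63 := by
    have h1 : 0 ≤ (a - 0.40739) * (X + 1.0613) := mul_nonneg (by linarith [ha.1]) (by linarith)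
    have h2 : 0 ≤ (0.40740 - a) * (X + 1.0613) := mul_nonneg (by linarith [ha.2]) (by linarith)
    constructor <;> linarith [ha.1, ha.2]
  have r2 : 0.18 ≤ 2 * a * b ^ 2 ∧ 2 * a * b ^ 2 ≤ 0.19 := by
    have h1 : 0 ≤ (a - 0.40739) * (b ^ 2 - 0.2271) := mul_nonneg (by linarith [ha.1]) (by linarith)
    have h2 : 0 ≤ (0.40740 - a) * (b ^ 2 - 0.2271) := mul_nonneg (by linarith [ha.2]) (by linarith)
    constructor <;> linarith [ha.1, ha.2]
  have i1 : -0.51 ≤ b * X ∧ b * X ≤ -0.50 := by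
    have h1 : 0 ≤ (b - 0.47656) * (X + 1.0613) := mul_nonneg (by linarith [hb.1]) (by linarith)
    have h2 : 0 ≤ (0.47657 - b) * (X + 1.0613) := mul_nonneg (by linarith [hb.2]) (by linarith)
    constructor <;> linarith [hb.1, hb.2]
  have ab : 0.194 ≤ a * b ∧ a * b ≤ 0.195 := by
    have h1 : 0 ≤ (a - 0.40739) * (b - 0.47656) := mul_nonneg (by linarith [ha.1]) (by linarith [hb.1])
    have h2 : 0 ≤ (0.40740 - a) * (b - 0.47656) := mul_nonneg (by linarith [ha.2]) (by linarith [hb.1])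
    constructor <;> linarith [ha.1, ha.2, hb.1, hb.2]
  have i2 : -0.24 ≤ 2 * a * b * (a - 1) ∧ 2 * a * b * (a - 1) ≤ -0.22 := by
    have h1 : 0 ≤ (a * b - 0.194) * (1 - a) := mul_nonneg (by linarith [ab.1]) (by linarith [ha.2])
    have h2 : 0 ≤ (0.195 - a * b) * (1 - a) := mul_nonneg (by linarith [ab.2]) (by linarith [ha.2])
    constructor <;> linarith [ha.1, ha.2]
  rw [← hX] at wre wim
  have wr : 0.43 ≤ w.re ∧ w.re ≤ 0.45 := by
    rw [wre]
    constructor <;> linarith [r1.1, r1.2, r2.1, r2.2]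
  have wi : -0.75 ≤ w.im ∧ w.im ≤ -0.72 := by
    rw [wim]
    constructor <;> linarith [i1.1, i1.2, i2.1, i2.2]
  have q1 : w.re ^ 2 ≤ 0.45 ^ 2 := pow_le_pow_left₀ (by linarith [wr.1]) wr.2 2
  have q2 : w.im ^ 2 ≤ 0.75 ^ 2 := by
    have h := pow_le_pow_left₀ (a := -w.im) (b := 0.75) (by linarith [wi.2]) (by linarith [wi.1]) 2
    rwa [neg_sq] at h
  have q3 : (1 - w.re) ^ 2 ≤ 0.57 ^ 2 :=
    pow_le_pow_left₀ (by linarith [wr.2]) (by linarith [wr.1]) 2
  have nw : ‖w‖ ≤ 1 := by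
    apply nle (by norm_num)
    norm_num at q1 q2 ⊢
    linarith
  have nw1 : ‖1 - w‖ ≤ 1 := by
    apply nle (by norm_num)
    rw [Complex.sub_re, Complex.sub_im, Complex.one_re, Complex.one_im, zero_sub, neg_sq]
    norm_num at q3 q2 ⊢
    linarith
  -- the recursion
  obtain ⟨Z, hZ⟩ : ∃ Z : ℕ → ℂ, ∀ n, Z n = ze z (p0 n) (p1 n) (p2 n) (p3 n) := ⟨_, fun _ => rfl⟩
  have hrec : ∀ n, Z n = z * Z (par n) + ((al n : ℝ) + w * (de n : ℝ)) := by
    intro n
    have h := ze_step z hz (p0 (par n)) (p1 (par n)) (p2 (par n)) (p3 (par n)) (al n) (de n)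
    rw [hZ, hZ, hw, ← h]
    congr 1
    · rw [hp0 n]; push_cast; ring
    · rw [hp1 n]; push_cast; ring
    · rw [hp2 n]; push_cast; ring
    · rw [hp3 n]; push_cast; ring
  have hD : ∀ n m, ‖((al n : ℝ) + w * (de n : ℝ) : ℂ) - ((al m : ℝ) + w * (de m : ℝ))‖ ≤ 1 := by
    intro n m
    have nw1' : ‖w - 1‖ ≤ 1 := by rw [norm_sub_rev]; exact nw1
    rcases hal n with ⟨h1, h2⟩ | ⟨h1, h2⟩ | ⟨h1, h2⟩ <;> rcases hal m with ⟨h3, h4⟩ | ⟨h3, h4⟩ | ⟨h3, h4⟩ <;>
      rw [h1, h2, h3, h4] <;> simp [nw, nw1, nw1']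
  have hZ0 : Z 0 = 0 := by
    rw [hZ, h0.1, h0.2.1, h0.2.2.1, h0.2.2.2]
    simp [ze]
  have hple : ∀ n, par n ≤ n := by
    intro n
    rcases Nat.eq_zero_or_pos n with h | h
    · rw [h, hpar0]
    · exact (hpar n h).le
  have hmain : ∀ s n m, n + m ≤ s → ‖Z n - Z m‖ ≤ 2.685 := by
    intro s
    induction s with
    | zero =>
      intro n m h
      have h1 : n = 0 := by omega
      have h2 : m = 0 := by omega
      rw [h1, h2, sub_self, norm_zero]
      norm_num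
    | succ s ih =>
      intro n m h
      by_cases hnm : n + m = 0
      · exact ih n m (by omega)
      · have hlt : par n + par m ≤ s := by
          rcases Nat.eq_zero_or_pos n with h1 | h1
          · have h2 : 1 ≤ m := by omega
            have := hpar m h2
            have := hple n
            omega
          · have := hpar n h1
            have := hple m
            omega
        have hi := ih (par n) (par m) hlt
        rw [hrec n, hrec m]
        have e : z * Z (par n) + ((al n : ℝ) + w * (de n : ℝ)) - (z * Z (par m) + ((al m : ℝ) + w * (de m : ℝ))) =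
            z * (Z (par n) - Z (par m)) + (((al n : ℝ) + w * (de n : ℝ) : ℂ) - ((al m : ℝ) + w * (de m : ℝ))) := by
          ring
        rw [e]
        have hh := hD n m
        calc _ ≤ ‖z * (Z (par n) - Z (par m))‖ + ‖(((al n : ℝ) + w * (de n : ℝ) : ℂ) - ((al m : ℝ) + w * (de m : ℝ)))‖ :=
              norm_add_le _ _
          _ ≤ 0.6272 * 2.685 + 1 := by
              refine add_le_add ?_ hh
              rw [norm_mul]
              exact mul_le_mul nz hi (norm_nonneg _) (by norm_num)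
          _ ≤ 2.685 := by norm_num
  have hV : ze z v0 v1 v2 v3 = (Z n0 - Z n1) - (Z n1 - Z n2) := by
    rw [hZ, hZ, hZ, hv0, hv1, hv2, hv3]
    unfold ze
    push_cast
    ring
  have hnV : ‖ze z v0 v1 v2 v3‖ ≤ 5.37 := by
    rw [hV]
    calc _ ≤ ‖Z n0 - Z n1‖ + ‖Z n1 - Z n2‖ := norm_sub_le _ _
      _ ≤ 2.685 + 2.685 := add_le_add (hmain _ n0 n1 le_rfl) (hmain _ n1 n2 le_rfl)
      _ ≤ 5.37 := by norm_num
  constructor
  · rw [← ze_re, ← hzdef]
    exact (Complex.abs_re_le_norm _).trans hnV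
  · rw [← ze_im, ← hzdef]
    exact (Complex.abs_im_le_norm _).trans hnV

end Pool.Agent.V7H33.AQ
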